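import Pool.Agent.ZGO.StmtsB

/-!
# ZGO, row WFI: `W` is finite and not zero (helper55)
-/

namespace Pool.Agent.ZGO.H55

open Pool.Agent.ZGO

theorem wfi_fin {P : Type} [Group P] {p : ℕ} {φ : P →* P} {X : Type} [AddCommGroup X]
    {τ : X →+ X} {ρ : P →* AddMonoid.End X} {F : ℕ → AddSubgroup X} {M : ℕ}
    (h : Cyc p φ τ ρ F M) (z : Wz τ F M) (hz : ∀ i < M, (z : ℕ → X) i ∈ F i) :
    ∀ i, (z : ℕ → X) i ∈ F i := by
  intro i
  induction i using Nat.strong_induction_on with
  | _ i ih =>
    by_cases hi : i < M
    · exact hz i hi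
    · obtain ⟨j, rfl⟩ : ∃ j, i = j + M := ⟨i - M, by omega⟩
      have hM := h.pos
      have h1 := ih j (by omega)
      have h2 := (z.2 j).2
      rw [h.sht]
      have h3 : τ ((z : ℕ → X) (j + M)) = (τ ((z : ℕ → X) (j + M)) - (z : ℕ → X) j) +
          (z : ℕ → X) j := by abel
      rw [h3]
      exact (F j).add_mem h2 h1

theorem wfi : WfiStmt := by
  intro P _ p φ X _ τ ρ F M h
  classical
  constructor
  · -- finite
    let V : Set (Fin M → X) := Set.univ.pi fun i : Fin M => (F ((i : ℕ) + 1) : Set X)
    have hV : V.Finite := Set.Finite.pi fun i => h.fin _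
    let f : Wz τ F M → V := fun z => ⟨fun i => (z : ℕ → X) i, fun i _ => (z.2 i).1⟩
    have hVf : Finite V := hV
    let g : Set.range f → Wq τ F M := fun v => QuotientAddGroup.mk v.2.choose
    refine Finite.of_surjective g ?_
    intro w
    obtain ⟨z, rfl⟩ := QuotientAddGroup.mk_surjective w
    refine ⟨⟨f z, ⟨z, rfl⟩⟩, ?_⟩
    have hex : ∃ z', f z' = f z := ⟨z, rfl⟩
    have hsp : f hex.choose = f z := hex.choose_spec
    show (QuotientAddGroup.mk hex.choose : Wq τ F M) = QuotientAddGroup.mk z
    rw [QuotientAddGroup.eq]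
    refine wfi_fin h _ ?_
    intro i hi
    have h1 : (hex.choose : ℕ → X) i = (z : ℕ → X) i :=
      congrFun (congrArg Subtype.val hsp) (⟨i, hi⟩ : Fin M)
    show -(hex.choose : ℕ → X) i + (z : ℕ → X) i ∈ F i
    rw [h1, neg_add_cancel]
    exact (F i).zero_mem
  · -- nontrivial
    obtain ⟨x, hx1, hx0⟩ := h.ne
    have hM := h.pos
    choose s hs using h.sur
    let w : ℕ → X := fun k => s^[k] x
    have hw : ∀ k, w k ∈ F (k * M + 1) := by
      intro k
      induction k with
      | zero =>
        rw [Nat.zero_mul, Nat.zero_add]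
        exact hx1
      | succ k ih =>
        have e : (k + 1) * M + 1 = (k * M + 1) + M := by ring
        rw [e, h.sht]
        have e2 : w (k + 1) = s (w k) := Function.iterate_succ_apply' s k x
        rw [e2, hs]
        exact ih
    let z : ℕ → X := fun i => if M ∣ i then w (i / M) else 0
    have hz : z ∈ Wz τ F M := by
      intro i
      by_cases hd : M ∣ i
      · obtain ⟨k, rfl⟩ := hd
        have h1 : z (M * k) = w k := by
          show (if M ∣ M * k then w (M * k / M) else 0) = w k
          rw [if_pos (dvd_mul_right _ _), Nat.mul_div_cancel_left _ (by omega)]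
        have h2 : z (M * k + M) = w (k + 1) := by
          show (if M ∣ M * k + M then w ((M * k + M) / M) else 0) = w (k + 1)
          have e : M * k + M = M * (k + 1) := by ring
          rw [e, if_pos (dvd_mul_right _ _), Nat.mul_div_cancel_left _ (by omega)]
        refine ⟨?_, ?_⟩
        · rw [h1, mul_comm M k]
          exact hw k
        · have e2 : w (k + 1) = s (w k) := Function.iterate_succ_apply' s k x
          rw [h1, h2, e2, hs, sub_self]
          exact (F _).zero_mem
      · have h1 : z i = 0 := if_neg hd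
        have h2 : z (i + M) = 0 := if_neg (fun h3 => hd ((Nat.dvd_add_left (dvd_refl M)).1 h3))
        refine ⟨?_, ?_⟩
        · rw [h1]
          exact (F _).zero_mem
        · rw [h1, h2, map_zero, sub_zero]
          exact (F _).zero_mem
    refine ⟨⟨QuotientAddGroup.mk ⟨z, hz⟩, 0, ?_⟩⟩
    intro h0
    have h1 : (⟨z, hz⟩ : Wz τ F M) ∈ W0 τ F M := (QuotientAddGroup.eq_zero_iff _).1 h0
    have h2 : z 0 ∈ F 0 := h1 0
    have h3 : z 0 = x := by
      show (if M ∣ 0 then w (0 / M) else 0) = x
      rw [if_pos (dvd_zero _), Nat.zero_div]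
      rfl
    rw [h3] at h2
    exact hx0 h2

end Pool.Agent.ZGO.H55
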